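import Pool.Agent.helper81.CX.Spec2

set_option autoImplicit false

open MeasureTheory Set Filter Topology
open scoped ENNReal
open Pool.Agent.helper81.CW

namespace Pool.Agent.CX

theorem LFC_un {n : ℕ} (x y : E n) (hx : x ≠ 0) (hy : y ≠ 0) : ‖y‖ * ‖un x - un y‖ ≤ 2 * ‖x - y‖ := by
  have hx0 : 0 < ‖x‖ := norm_pos_iff.mpr hx
  have hy0 : 0 < ‖y‖ := norm_pos_iff.mpr hy
  have h1 : ‖y‖ * ‖un x - un y‖ = ‖(‖y‖ * ‖x‖⁻¹) • x - y‖ := by
    calc ‖y‖ * ‖un x - un y‖ = ‖‖y‖ • (un x - un y)‖ := by rw [norm_smul, norm_norm]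
      _ = ‖(‖y‖ * ‖x‖⁻¹) • x - y‖ := by
          unfold un
          rw [smul_sub, smul_smul, smul_smul, mul_inv_cancel₀ hy0.ne', one_smul]
  have h2 : (‖y‖ * ‖x‖⁻¹) • x - y = (x - y) + (‖y‖ * ‖x‖⁻¹ - 1) • x := by
    rw [sub_smul, one_smul]
    abel
  have h3 : ‖(‖y‖ * ‖x‖⁻¹ - 1) • x‖ = |‖y‖ - ‖x‖| := by
    have e : ‖y‖ - ‖x‖ = (‖y‖ * ‖x‖⁻¹ - 1) * ‖x‖ := by
      rw [sub_mul, mul_assoc, inv_mul_cancel₀ hx0.ne', mul_one, one_mul]
    rw [norm_smul, Real.norm_eq_abs, e, abs_mul, abs_norm]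
  have h4 : |‖y‖ - ‖x‖| ≤ ‖x - y‖ := by
    rw [norm_sub_rev]
    exact abs_norm_sub_norm_le y x
  rw [h1, h2]
  refine (norm_add_le _ _).trans ?_
  rw [h3]
  linarith

/-- the second moment about the mean -/
theorem LFC_var {n : ℕ} (hP : IsProbabilityMeasure (gm n)) (F : E n → ℝ)
    (h1 : Integrable F (gm n)) (h2 : Integrable (fun x => F x ^ 2) (gm n)) :
    Integrable (fun x => (F x - ∫ z, F z ∂(gm n)) ^ 2) (gm n) ∧
    ∫ x, (F x - ∫ z, F z ∂(gm n)) ^ 2 ∂(gm n) = ∫ x, F x ^ 2 ∂(gm n) - (∫ x, F x ∂(gm n)) ^ 2 := by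
  obtain ⟨c, hc⟩ : ∃ c : ℝ, c = ∫ z, F z ∂(gm n) := ⟨_, rfl⟩
  rw [← hc]
  have he : ∀ x, (F x - c) ^ 2 = F x ^ 2 - 2 * c * F x + c ^ 2 := fun x => by ring
  have hi : Integrable (fun x => F x ^ 2 - 2 * c * F x + c ^ 2) (gm n) :=
    (h2.sub (h1.const_mul _)).add (integrable_const _)
  constructor
  · exact hi.congr (Filter.Eventually.of_forall fun x => (he x).symm)
  · rw [integral_congr_ae (Filter.Eventually.of_forall he)]
    have hA : Integrable (fun x => F x ^ 2 - 2 * c * F x) (gm n) := h2.sub (h1.const_mul (2 * c))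
    have hB : ∫ x, (F x ^ 2 - 2 * c * F x) ∂(gm n) =
        ∫ x, F x ^ 2 ∂(gm n) - ∫ x, 2 * c * F x ∂(gm n) := integral_sub h2 (h1.const_mul (2 * c))
    rw [integral_add hA (integrable_const _), hB, integral_const_mul, ← hc]
    simp only [integral_const, smul_eq_mul, probReal_univ]
    ring

theorem LFC (hG1 : G1_stmt) (hG4 : G4_stmt) (hGVA : GVA_stmt) : LFC_stmt := by
  intro n φ hφm hφ0 hφ4 hφh hφl
  obtain ⟨hP, _⟩ := hG1 n
  have hφi : Integrable φ (gm n) := by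
    refine Integrable.mono' (integrable_const (4 : ℝ)) hφm.aestronglyMeasurable ?_
    refine Filter.Eventually.of_forall fun x => ?_
    rw [Real.norm_eq_abs, abs_of_nonneg (hφ0 x)]
    exact hφ4 x
  obtain ⟨m, hm⟩ : ∃ m : ℝ, m = ∫ z, φ z ∂(gm n) := ⟨_, rfl⟩
  rw [← hm]
  have hm0 : 0 ≤ m := by
    rw [hm]
    exact integral_nonneg hφ0
  have hm4 : m ≤ 4 := by
    rw [hm]
    have h := integral_mono hφi (integrable_const (4 : ℝ)) hφ4
    simpa only [integral_const, smul_eq_mul, probReal_univ, one_mul] using h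
  have hdev : ∀ x, |φ x - m| ≤ 4 := by
    intro x
    rw [abs_le]
    constructor <;> linarith [hφ0 x, hφ4 x]
  -- the Lipschitz function
  have hlip : ∀ x y : E n, |‖x‖ * (φ x - m) - ‖y‖ * (φ y - m)| ≤ 12 * ‖x - y‖ := by
    intro x y
    by_cases hx : x = 0
    · subst hx
      rw [norm_zero, zero_mul, zero_sub, abs_neg, zero_sub, norm_neg, abs_mul, abs_norm]
      have h3 := norm_nonneg y
      have h4 : ‖y‖ * |φ y - m| ≤ ‖y‖ * 4 := mul_le_mul_of_nonneg_left (hdev y) h3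
      linarith
    by_cases hy : y = 0
    · subst hy
      rw [norm_zero, zero_mul, sub_zero, sub_zero, abs_mul, abs_norm]
      have h3 := norm_nonneg x
      have h4 : ‖x‖ * |φ x - m| ≤ ‖x‖ * 4 := mul_le_mul_of_nonneg_left (hdev x) h3
      linarith
    have e : ‖x‖ * (φ x - m) - ‖y‖ * (φ y - m) = (‖x‖ - ‖y‖) * (φ x - m) + ‖y‖ * (φ x - φ y) := by
      ring
    rw [e]
    refine (abs_add_le _ _).trans ?_
    rw [abs_mul, abs_mul, abs_norm]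
    have h2 : |‖x‖ - ‖y‖| * |φ x - m| ≤ ‖x - y‖ * 4 :=
      mul_le_mul (abs_norm_sub_norm_le x y) (hdev x) (abs_nonneg _) (norm_nonneg _)
    have h3 : ‖y‖ * |φ x - φ y| ≤ ‖y‖ * (4 * ‖un x - un y‖) :=
      mul_le_mul_of_nonneg_left (hφl x y hx hy) (norm_nonneg _)
    have h4 := LFC_un x y hx hy
    linarith
  obtain ⟨hfi, hfi2, hf⟩ := hGVA n (fun x => ‖x‖ * (φ x - m)) 12 (by norm_num) hlip
  obtain ⟨hni, hni2, hn⟩ := hGVA n (fun x => ‖x‖) 1 zero_le_one (fun x y => by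
    rw [one_mul]
    exact abs_norm_sub_norm_le x y)
  obtain ⟨N, hN⟩ : ∃ N : ℝ, N = ∫ x : E n, ‖x‖ ∂(gm n) := ⟨_, rfl⟩
  obtain ⟨hvi, hv⟩ := LFC_var hP (fun x => ‖x‖) hni hni2
  have hv1 : ∫ x : E n, (‖x‖ - N) ^ 2 ∂(gm n) ≤ 1 := by
    rw [hN, hv]
    have := hn
    linarith
  rw [← hN] at hvi
  -- the mean of `f`
  have hφc : Integrable (fun x => N * (φ x - m)) (gm n) :=
    (hφi.sub (integrable_const _)).const_mul _
  have hFi : Integrable (fun x => (‖x‖ - N) * (φ x - m)) (gm n) := by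
    refine (hfi.sub hφc).congr (Filter.Eventually.of_forall fun x => ?_)
    show ‖x‖ * (φ x - m) - N * (φ x - m) = (‖x‖ - N) * (φ x - m)
    ring
  have hmean : ∫ x, ‖x‖ * (φ x - m) ∂(gm n) = ∫ x, (‖x‖ - N) * (φ x - m) ∂(gm n) := by
    have h1 : ∫ x, ‖x‖ * (φ x - m) ∂(gm n) = ∫ x, ((‖x‖ - N) * (φ x - m) + N * (φ x - m)) ∂(gm n) := by
      refine integral_congr_ae (Filter.Eventually.of_forall fun x => ?_)
      show ‖x‖ * (φ x - m) = (‖x‖ - N) * (φ x - m) + N * (φ x - m)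
      ring
    have h2 : ∫ x, N * (φ x - m) ∂(gm n) = 0 := by
      rw [integral_const_mul, integral_sub hφi (integrable_const _), ← hm]
      simp
    rw [h1, integral_add hFi hφc, h2, add_zero]
  have hbound : ∀ x : E n, ((‖x‖ - N) * (φ x - m)) ^ 2 ≤ 16 * (‖x‖ - N) ^ 2 := by
    intro x
    have h1 : (φ x - m) ^ 2 ≤ 16 := by
      have := sq_le_sq' (abs_le.1 (hdev x)).1 (abs_le.1 (hdev x)).2
      linarith
    calc ((‖x‖ - N) * (φ x - m)) ^ 2 = (‖x‖ - N) ^ 2 * (φ x - m) ^ 2 := by ring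
      _ ≤ (‖x‖ - N) ^ 2 * 16 := mul_le_mul_of_nonneg_left h1 (sq_nonneg _)
      _ = 16 * (‖x‖ - N) ^ 2 := by ring
  have hF2i : Integrable (fun x => ((‖x‖ - N) * (φ x - m)) ^ 2) (gm n) := by
    refine Integrable.mono' (hvi.const_mul 16) ?_ ?_
    · exact (hFi.aestronglyMeasurable.pow 2)
    · refine Filter.Eventually.of_forall fun x => ?_
      rw [Real.norm_of_nonneg (sq_nonneg _)]
      exact hbound x
  have hsq : (∫ x, ‖x‖ * (φ x - m) ∂(gm n)) ^ 2 ≤ 16 := by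
    rw [hmean]
    obtain ⟨_, hvar⟩ := LFC_var hP (fun x => (‖x‖ - N) * (φ x - m)) hFi hF2i
    have h0 : 0 ≤ ∫ x, ((‖x‖ - N) * (φ x - m) - ∫ z, (‖z‖ - N) * (φ z - m) ∂(gm n)) ^ 2 ∂(gm n) :=
      integral_nonneg fun x => sq_nonneg _
    have h1 : ∫ x, ((‖x‖ - N) * (φ x - m)) ^ 2 ∂(gm n) ≤ ∫ x, 16 * (‖x‖ - N) ^ 2 ∂(gm n) :=
      integral_mono hF2i (hvi.const_mul 16) hbound
    rw [integral_const_mul] at h1
    have h2 := hvar
    linarith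
  have h4 := hG4 n (fun x => (φ x - m) ^ 2) 16 ((hφm.sub_const m).pow_const 2)
    (fun x => by
      rw [abs_of_nonneg (sq_nonneg _)]
      have := sq_le_sq' (abs_le.1 (hdev x)).1 (abs_le.1 (hdev x)).2
      linarith)
    (fun x t ht => by
      show (φ (t • x) - m) ^ 2 = (φ x - m) ^ 2
      rw [hφh x t ht])
  have h5 : ∫ x, ‖x‖ ^ 2 * (φ x - m) ^ 2 ∂(gm n) = ∫ x, (‖x‖ * (φ x - m)) ^ 2 ∂(gm n) := by
    refine integral_congr_ae (Filter.Eventually.of_forall fun x => ?_)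
    show ‖x‖ ^ 2 * (φ x - m) ^ 2 = (‖x‖ * (φ x - m)) ^ 2
    ring
  have h6 : (n : ℝ) * ∫ x, (φ x - m) ^ 2 ∂(gm n) = ∫ x, (‖x‖ * (φ x - m)) ^ 2 ∂(gm n) := by
    rw [← h5]
    exact h4.symm
  rw [h6]
  have h7 : ∫ x, (‖x‖ * (φ x - m)) ^ 2 ∂(gm n) ≤ 12 ^ 2 + (∫ x, ‖x‖ * (φ x - m) ∂(gm n)) ^ 2 := hf
  linarith

end Pool.Agent.CX
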